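import Pool.Agent.Y229.SPDefs
import Pool.Agent.R852.TP.Defs
import Mathlib.RingTheory.PowerSeries.Expand

set_option autoImplicit false

/-! # Motivic zeta functions: classes closed under sums, products, powers and forms

See `Pool/Agent/W574/RO/Defs` and `Pool/Agent/Y229/SPDefs` for the notation: `M` is a commutative ring
with a unit `L`, for instance `K₀(Var_ℂ)[1/L]`, and `∫ T^(ord I) dμ = ∑_e μ(ord I = e) T^e` is the motivic
zeta function of the ideal `I`, `μ` the motivic volume. In `MG` the set of all arcs of the affine space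
has the volume `1`; in `ML` the set of the arcs with the origin `0` has the volume `1`.

If `φ = (x(t), y(t))` is an arc and `e_t = min_j ord f_{t,j}(x(t)) < ∞`, then
`∑_j y_{t,j} f_{t,j} = t^(e_t) ℓ_t(y_t(t))` with a linear form `ℓ_t`, one of whose coefficients is a unit;
so, for fixed `x(t)`, the integral of `T^(ord F)`, `F = h ∏_t (∑_j y_{t,j} f_{t,j}) ^ a_t`, over the
`y(t)` is `T^e ∏_t (1 - L⁻¹) / (1 - L⁻¹ T^(a_t))`, where `e` is the order of the ideal
`h ∏_t (f_{t,j})_j ^ a_t` along `x(t)`, and it is `T^e ∏_t (L - 1) L⁻¹ T^(a_t) / (1 - L⁻¹ T^(a_t))` if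
`y(0) = 0` is required (and the set of these `y` has the volume `1`). -/

namespace Pool.Agent.R852.MC

open MvPolynomial Pool.Agent.W574.SM Pool.Agent.W574.MO Pool.Agent.W574.CN Pool.Agent.W574.RO
open Pool.Agent.Y229 Pool.Agent.R852.TP

variable {M : Type} [CommRing M]

/-- `MG L A Z`: `Z = ∫ T^(ord I) dμ` is the motivic zeta function of the ideal `I` which is generated by
the family `A`, where `I` is in the least class with the following properties. -/
inductive MG (L : Mˣ) : Fam → PowerSeries M → Prop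
  /-- the unit ideal -/
  | unit (A : Fam) (hA : Finite A.σ) (j : A.ι) (c : ℂ) (hc : c ≠ 0) (hj : A.f j = C c) : MG L A 1
  /-- the ideal `(x ^ m)` of `ℂ[x]`: the volume of `ord x^m = m k` is `(1 - L⁻¹) L⁻ᵏ` -/
  | power (m : ℕ) (hm : 1 ≤ m) : MG L ⟨Fin 1, Fin 1, fun _ => X 0 ^ m⟩
      (PowerSeries.C (1 - ((L⁻¹ : Mˣ) : M)) * geo L m 1)
  /-- any non-zero ideal of `ℂ[x₁, x₂]` -/
  | plane (r : ℕ) (f : Fin r → MvPolynomial (Fin 2) ℂ) (hf : ∃ j, f j ≠ 0) (Z : PowerSeries M)
      (hZ : PlaneVol L f Z) : MG L ⟨Fin 2, Fin r, f⟩ Z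
  /-- an ideal of `ℂ[x₀, x₁, x₂]` generated by forms of degree `d > 0`, three of which are
  algebraically independent: the integral over the arcs with `x(0) ≠ 0` is `L⁻³ (L - 1) Z`, see
  `ProjVol`, and all arcs are of the form `t ^ k x(t)` with such an `x(t)` -/
  | cone (r : ℕ) (f : Fin r → MvPolynomial (Fin 3) ℂ) (d : ℕ) (hd : 0 < d)
      (hf : ∀ j, (f j).IsHomogeneous d) (e : Fin 3 → Fin r)
      (he : (Matrix.of fun s t => pderiv s (f (e t))).det ≠ 0) (Z : PowerSeries M)
      (hZ : ProjVol L f Z) : MG L ⟨Fin 3, Fin r, f⟩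
        (PowerSeries.C (((L : M) - 1) * ((L⁻¹ ^ 3 : Mˣ) : M)) * Z * geo L d 3)
  /-- an ideal of `ℂ[x₀, ..., xₙ]` generated by forms of degree `d > 0` without a common zero outside
  the origin, `n + 1` of which are algebraically independent -/
  | free (n r : ℕ) (f : Fin r → MvPolynomial (Fin (n + 1)) ℂ) (d : ℕ) (hd : 0 < d)
      (hf : ∀ j, (f j).IsHomogeneous d) (h0 : ∀ p, (∀ j, eval p (f j) = 0) → p = 0)
      (e : Fin (n + 1) → Fin r) (he : (Matrix.of fun s t => pderiv s (f (e t))).det ≠ 0) :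
      MG L ⟨Fin (n + 1), Fin r, f⟩
        (PowerSeries.C (1 - ((L⁻¹ ^ (n + 1) : Mˣ) : M)) * geo L d (n + 1))
  /-- the sum of two ideals in disjoint sets of variables -/
  | sum (A B : Fam) (Z W : PowerSeries M) (hA : MG L A Z) (hB : MG L B W) :
      MG L (A.sum B) (sumSeries Z W)
  /-- the product of two ideals in disjoint sets of variables: the orders are added -/
  | mul (A B : Fam) (Z W : PowerSeries M) (hA : MG L A Z) (hB : MG L B W) : MG L (A.mul B) (Z * W)
  /-- the hypersurface `h(x) ∏_t (∑_j y_{t, j} f_{t, j}(x)) ^ a_t = 0`, if the ideal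
  `h ∏_t (f_{t, j})_j ^ a_t` is in the class -/
  | form (σ τ : Type) [Fintype τ] [DecidableEq τ] [Nonempty τ] (κ : τ → Type)
      [∀ t, Fintype (κ t)] (a : τ → ℕ) (ha : ∀ t, 0 < a t) (h : MvPolynomial σ ℂ)
      (f : (t : τ) → κ t → MvPolynomial σ ℂ) (Z : PowerSeries M) (hA : MG L (genFam a h f) Z) :
      MG L (formFam a h f) (Z * ∏ t, (PowerSeries.C (1 - ((L⁻¹ : Mˣ) : M)) * geo L (a t) 1))
  /-- the powers of a principal ideal: the orders are multiplied by `k` -/
  | pow (σ : Type) (g : MvPolynomial σ ℂ) (k : ℕ) (hk : k ≠ 0) (Z : PowerSeries M)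
      (hA : MG L ⟨σ, Fin 1, fun _ => g⟩ Z) :
      MG L ⟨σ, Fin 1, fun _ => g ^ k⟩ (PowerSeries.expand k hk Z)
  /-- the variables and the generators may be indexed differently -/
  | equiv (A B : Fam) (i : A.σ ≃ B.σ) (k : A.ι ≃ B.ι) (h : ∀ j, B.f (k j) = rename i (A.f j))
      (Z : PowerSeries M) (hA : MG L A Z) : MG L B Z

/-- `ML L A Z`: the ideal `I` generated by the family `A` is in the least class with the following
properties, and `Z` is its local motivic zeta function at the origin, normalized such that the arcs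
with the origin `0` have the volume `1`. -/
inductive ML (L : Mˣ) : Fam → PowerSeries M → Prop
  /-- the germs in `Germ` -/
  | germ (A : Fam) (Z : PowerSeries M) (h : Germ L A Z) : ML L A Z
  /-- the sum of two ideals in disjoint sets of variables -/
  | sum (A B : Fam) (Z W : PowerSeries M) (hA : ML L A Z) (hB : ML L B W) :
      ML L (A.sum B) (sumSeries Z W)
  /-- the product of two ideals in disjoint sets of variables: the orders are added -/
  | mul (A B : Fam) (Z W : PowerSeries M) (hA : ML L A Z) (hB : ML L B W) : ML L (A.mul B) (Z * W)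
  /-- the germ of the hypersurface `h(x) ∏_t (∑_j y_{t, j} f_{t, j}(x)) ^ a_t = 0`, if the germ of the
  ideal `h ∏_t (f_{t, j})_j ^ a_t` is in the class -/
  | form (σ τ : Type) [Fintype τ] [DecidableEq τ] [Nonempty τ] (κ : τ → Type)
      [∀ t, Fintype (κ t)] (a : τ → ℕ) (ha : ∀ t, 0 < a t) (h : MvPolynomial σ ℂ)
      (f : (t : τ) → κ t → MvPolynomial σ ℂ) (Z : PowerSeries M) (hA : ML L (genFam a h f) Z) :
      ML L (formFam a h f) (Z * ∏ t, mf L (a t) 1)
  /-- the powers of a principal ideal: the orders are multiplied by `k` -/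
  | pow (σ : Type) (g : MvPolynomial σ ℂ) (k : ℕ) (hk : k ≠ 0) (Z : PowerSeries M)
      (hA : ML L ⟨σ, Fin 1, fun _ => g⟩ Z) :
      ML L ⟨σ, Fin 1, fun _ => g ^ k⟩ (PowerSeries.expand k hk Z)
  /-- the variables and the generators may be indexed differently -/
  | equiv (A B : Fam) (i : A.σ ≃ B.σ) (k : A.ι ≃ B.ι) (h : ∀ j, B.f (k j) = rename i (A.f j))
      (Z : PowerSeries M) (hA : ML L A Z) : ML L B Z

end Pool.Agent.R852.MC
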