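import Pool.Agent.Y229.SP5
import Mathlib.RingTheory.PowerSeries.Expand

set_option autoImplicit false
set_option linter.unusedSectionVars false
set_option linter.unusedVariables false

/-! # The series `Z(T ^ k)` and the ring of the denominators -/

namespace Pool.Agent.R852.MC

open PowerSeries Pool.Agent.W574.MO Pool.Agent.W574.RO Pool.Agent.W574.SM Pool.Agent.W574.CN

variable {M : Type} [CommRing M] {L : Mˣ}

/-- division by a power of `T` -/
theorem of_X_pow_mul {K : ℕ → ℕ → Prop} (m : ℕ) (Z : M⟦X⟧) (h : X ^ m * Z ∈ DenRing L K) :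
    Z ∈ DenRing L K := by
  obtain ⟨s, hs, h1⟩ := exists_dp h
  refine mem_of_dp s hs ?_
  obtain ⟨N, hN⟩ := h1
  refine ⟨N, fun e he => ?_⟩
  have h2 := hN (e + m) (by omega)
  have h3 : dp L s * (X ^ m * Z) = X ^ m * (dp L s * Z) := by ring
  rw [h3, coeff_X_pow_mul'] at h2
  rw [if_pos (by omega)] at h2
  rwa [Nat.add_sub_cancel] at h2

theorem expand_mem {K K' : ℕ → ℕ → Prop} (k : ℕ) (hk : k ≠ 0)
    (hK : ∀ a n, 1 ≤ a → 1 ≤ n → K a n → K' (k * a) n) (Z : M⟦X⟧) (hZ : Z ∈ DenRing L K) :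
    expand k hk Z ∈ DenRing L K' := by
  induction hZ using Subring.closure_induction with
  | mem x hx =>
    rcases hx with ⟨P, rfl⟩ | ⟨a, n, ha, hn, h1, h2⟩
    · beta_reduce
      induction P using Polynomial.induction_on with
      | C c =>
        rw [Polynomial.coe_C, expand_C]
        exact C_mem _
      | add p q hp hq =>
        rw [Polynomial.coe_add, map_add]
        exact (DenRing L K').add_mem hp hq
      | monomial n c _ =>
        rw [Polynomial.coe_mul, Polynomial.coe_pow, Polynomial.coe_C, Polynomial.coe_X, map_mul,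
          map_pow, expand_C, expand_X]
        exact (DenRing L K').mul_mem (C_mem _) ((DenRing L K').pow_mem
          ((DenRing L K').pow_mem X_mem _) _)
    · refine Subring.subset_closure (Or.inr ⟨k * a, n, ?_, hn, hK a n ha hn h1, ?_⟩)
      · exact Nat.one_le_iff_ne_zero.2 (Nat.mul_ne_zero hk (by omega))
      · have h3 := congrArg (expand k hk) h2
        rw [map_mul, map_sub, map_mul, map_pow, expand_C, expand_X, map_one, ← pow_mul] at h3
        exact h3
  | one => rw [map_one]; exact (DenRing L K').one_mem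
  | zero => rw [map_zero]; exact (DenRing L K').zero_mem
  | add x y _ _ hx hy => rw [map_add]; exact (DenRing L K').add_mem hx hy
  | neg x _ hx => rw [map_neg]; exact (DenRing L K').neg_mem hx
  | mul x y _ _ hx hy => rw [map_mul]; exact (DenRing L K').mul_mem hx hy

/-- the tails of `Z(T ^ k)` -/
theorem tail_expand (k : ℕ) (hk : k ≠ 0) (Z : M⟦X⟧) :
    X ^ (k - 1) * tail 1 (expand k hk Z) =
      (∑ i ∈ Finset.range k, X ^ i) * expand k hk (tail 1 Z) -
        ∑ i ∈ Finset.range (k - 1), X ^ i := by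
  obtain ⟨m, rfl⟩ : ∃ m, k = m + 1 := ⟨k - 1, by omega⟩
  rw [Nat.add_sub_cancel]
  have h1 : ∀ A B : M⟦X⟧, (1 - X) * A = (1 - X) * B → A = B := by
    intro A B h
    have e1 : A = tail (0 : M) (0 : M⟦X⟧) + A := by
      rw [← eq_tail (c := (0 : M)) (Z := (0 : M⟦X⟧)) (T := 0) (by simp), zero_add]
    have h2 : (1 - X) * (A - B) = C (0 : M) - X * 0 := by
      rw [mul_sub, h, sub_self, map_zero, mul_zero, sub_zero]
    have h3 := eq_tail h2
    have h4 : (0 : M⟦X⟧) = tail 0 0 := eq_tail (by simp)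
    rw [← h4] at h3
    exact sub_eq_zero.1 h3
  apply h1
  have h2 := tail_eq (1 : M) (expand (m + 1) hk Z)
  have h3 := congrArg (expand (m + 1) hk) (tail_eq (1 : M) Z)
  rw [map_mul, map_sub, map_sub, map_mul, map_one, expand_X, expand_C] at h3
  have h4 := mul_neg_geom_sum (X : M⟦X⟧) (m + 1)
  have h5 := mul_neg_geom_sum (X : M⟦X⟧) m
  rw [map_one] at h2 h3
  set t := tail (1 : M) (expand (m + 1) hk Z)
  set u := expand (m + 1) hk (tail (1 : M) Z)
  set z := expand (m + 1) hk Z
  linear_combination (X ^ m) * h2 - h3 - u * h4 + h5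

theorem tail_expand_mem {K K' : ℕ → ℕ → Prop} (k : ℕ) (hk : k ≠ 0)
    (hK : ∀ a n, 1 ≤ a → 1 ≤ n → K a n → K' (k * a) n) (Z : M⟦X⟧)
    (hZ : tail 1 Z ∈ DenRing L K) : tail 1 (expand k hk Z) ∈ DenRing L K' := by
  refine of_X_pow_mul (k - 1) _ ?_
  rw [tail_expand]
  exact (DenRing L K').sub_mem ((DenRing L K').mul_mem (X_pow_sum_mem k)
    (expand_mem k hk hK _ hZ)) (X_pow_sum_mem _)

/-- the tails of a series and of its multiple by a power of `T` -/
theorem tail_X_pow_mul {K : ℕ → ℕ → Prop} (d : ℕ) (Z : M⟦X⟧)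
    (h : tail 1 (X ^ d * Z) ∈ DenRing L K) : tail 1 Z ∈ DenRing L K := by
  refine of_X_pow_mul d _ ?_
  have h1 : X ^ d * tail 1 Z = tail 1 (X ^ d * Z) - ∑ i ∈ Finset.range d, X ^ i := by
    rw [eq_sub_iff_add_eq]
    apply eq_tail
    have h2 := tail_eq (1 : M) Z
    have h4 := mul_neg_geom_sum (X : M⟦X⟧) d
    rw [map_one] at h2 ⊢
    linear_combination (X ^ d) * h2 + h4
  rw [h1]
  exact (DenRing L K).sub_mem h (X_pow_sum_mem _)

end Pool.Agent.R852.MC
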