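import Pool.Agent.R852.MC.Defs

set_option autoImplicit false

/-! # Jets with angular component one: the classes -/

namespace Pool.Agent.R852.MC

open MvPolynomial Pool.Agent.W574.MO Pool.Agent.W574.RO Pool.Agent.R852.TP

variable {M : Type} [CommRing M]

/-- `g` is the number of the components of the solutions of `∏_t λ_t ^ a_t = c`, `c ≠ 0` the first
coefficient of `h` along an arc: it is `1` if the greatest common divisor of the `a_t` is `1`, and it
is this greatest common divisor if `h` is constant. -/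
def NumC {σ τ : Type} [Fintype τ] (a : τ → ℕ) (h : MvPolynomial σ ℂ) (g : ℕ) : Prop :=
  g = Finset.univ.gcd a ∧ (g = 1 ∨ ∃ c, h = C c)

/-- `Z` is (of the form of) the series `∑_{m ≥ 0} [X_{m,1}] L^(-m N) T^m` of
`F = h ∏_t (∑_j y_{t, j} f_{t, j}) ^ a_t` in `N` variables, where `X_{m,1}` is the set of the `m`-jets `φ`
with `F(φ) = t^m` modulo `t^(m + 1)`, and the ideal `J = h ∏_t (f_{t, j})_j ^ a_t` is in the class `MG`, with
the motivic zeta function `Z' = ∫ T^(ord J) dμ`: it is `L^N Z'` times the factor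
`g (L - 1) ^ (k - 1) L ^ (-k) ∏_t 1 / (1 - L⁻¹ T^(a_t))` of the variables `y`, `k` the number of the `t`; see
`Pool/Agent/R852/BM/PJet`. -/
def JetG (L : Mˣ) {σ τ : Type} [Fintype τ] [DecidableEq τ] {κ : τ → Type} [∀ t, Fintype (κ t)]
    (a : τ → ℕ) (h : MvPolynomial σ ℂ) (f : (t : τ) → κ t → MvPolynomial σ ℂ)
    (Z : PowerSeries M) : Prop :=
  ∃ (g : ℕ) (Z' : PowerSeries M), NumC a h g ∧ MG L (genFam a h f) Z' ∧
    Z = PowerSeries.C (((L ^ (Nat.card σ + ∑ t, Fintype.card (κ t)) : Mˣ) : M) *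
      ((g : M) * ((L : M) - 1) ^ (Fintype.card τ - 1) * ((L⁻¹ ^ Fintype.card τ : Mˣ) : M))) * Z' *
        ∏ t, geo L (a t) 1

/-- `Z` is (of the form of) the series `∑_{m ≥ 1} [X_{m,1,0}] L^(-m N) T^m` of
`F = h ∏_t (∑_j y_{t, j} f_{t, j}) ^ a_t` in `N` variables, where `X_{m,1,0}` is the set of the `m`-jets `φ` with
`φ(0) = 0` and `F(φ) = t^m` modulo `t^(m + 1)`, and the germ of the ideal `J = h ∏_t (f_{t, j})_j ^ a_t` is in
the class `ML`, with the motivic zeta function `L^(-n) Z'` at the origin, `n` the number of the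
variables `x`: it is `Z'` times the factor
`g (L - 1) ^ (k - 1) L ^ (-k) ∏_t T^(a_t) / (1 - L⁻¹ T^(a_t))`, `k` the number of the `t`. -/
def JetL (L : Mˣ) {σ τ : Type} [Fintype τ] [DecidableEq τ] {κ : τ → Type} [∀ t, Fintype (κ t)]
    (a : τ → ℕ) (h : MvPolynomial σ ℂ) (f : (t : τ) → κ t → MvPolynomial σ ℂ)
    (Z : PowerSeries M) : Prop :=
  ∃ (g : ℕ) (Z' : PowerSeries M), NumC a h g ∧ ML L (genFam a h f) Z' ∧
    Z = PowerSeries.C ((g : M) * ((L : M) - 1) ^ (Fintype.card τ - 1) *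
      ((L⁻¹ ^ Fintype.card τ : Mˣ) : M)) * Z' * ∏ t, (PowerSeries.X ^ a t * geo L (a t) 1)

end Pool.Agent.R852.MC
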