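import Pool.Agent.R852.MC.Main
import Pool.Agent.R852.MC.JDefs
import Pool.Agent.Y229.SP6

set_option autoImplicit false
set_option linter.unusedSectionVars false
set_option linter.unusedVariables false

/-! # The denominators of the motivic zeta functions: the final statements -/

namespace Pool.Agent.R852.MC

open MvPolynomial Pool.Agent.W574.MO Pool.Agent.W574.SM Pool.Agent.W574.LM Pool.Agent.W574.HS
  Pool.Agent.W574.RO Pool.Agent.W574.CN Pool.Agent.Y229 Pool.Agent.R852.TP Pool.Agent.R852.TL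
open Pool.Agent.R852.PP (cntR one_le_cntR)
open Pool.Agent.Y230.PS (FM single_of_isB)
open Pool.Agent.Y230.TH (fm_one)
open Pool.Agent.H628R4.TP (IsBFunction IsLocalBFunction)

variable {M : Type} [CommRing M] {L : Mˣ}

/-- ideals at the origin -/
theorem ml_ideal (A : Fam) (Z : PowerSeries M) (h : ML L A Z) (c : M) :
    PowerSeries.C c * Z ∈ DenRing L (fun a n => ∀ b : Polynomial ℂ, IsLocalBI A.f b →
      b.eval (-(n : ℂ) / a) = 0) := by
  classical
  obtain ⟨hfin, -, hm⟩ := ml_main A Z h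
  have := hfin
  refine (DenRing L _).mul_mem (C_mem _) (denRing_mono (fun a n _ _ h b hb => ?_)
    (mem_of_tail hm))
  exact SF.localBI h b hb

theorem sf_root {σ : Type} (hfin : Finite σ) (F : MvPolynomial σ ℂ) (hF : F ≠ 0) (s : ℂ)
    (h : SF (fun _ : Fin 1 => F) 0 s) (b : Polynomial ℂ) (hb : IsLocalBFunction F b) :
    b.eval s = 0 := Pool.Agent.Y230.TL.root_of_sf hfin F hF s h b hb

/-- hypersurfaces at the origin -/
theorem ml_hyp {σ : Type} (F : MvPolynomial σ ℂ) (Z : PowerSeries M)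
    (h : ML L ⟨σ, Fin 1, fun _ => F⟩ Z) (b : Polynomial ℂ) (hb : IsLocalBFunction F b) (c : M) :
    PowerSeries.C c * Z ∈ DenRing L (RootPair b) := by
  classical
  obtain ⟨hfin, ⟨j, hj⟩, hm⟩ := ml_main _ Z h
  exact (DenRing L _).mul_mem (C_mem _) (denRing_mono
    (fun a n _ _ h => sf_root hfin F hj _ h b hb) (mem_of_tail hm))

/-- hypersurfaces -/
theorem mg_hyp {σ : Type} (F : MvPolynomial σ ℂ) (Z : PowerSeries M)
    (h : MG L ⟨σ, Fin 1, fun _ => F⟩ Z) (b : Polynomial ℂ) (hb : IsBFunction F b) (c : M) :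
    PowerSeries.C c * Z ∈ DenRing L (RootPair b) := by
  obtain ⟨-, -, hm⟩ := mg_main _ Z h
  exact (DenRing L _).mul_mem (C_mem _) (denRing_mono
    (fun a n _ _ h => h b (single_of_isB _ _ hb)) (mem_of_tail hm))

section

variable {σ τ : Type} [Fintype τ] [DecidableEq τ] [Nonempty τ] {κ : τ → Type}
  [∀ t, Fintype (κ t)] (a : τ → ℕ) (h : MvPolynomial σ ℂ)
  (f : (t : τ) → κ t → MvPolynomial σ ℂ)

/-- jets -/
theorem jetG_main (ha : ∀ t, 0 < a t) (Z : PowerSeries M) (hZ : JetG L a h f Z)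
    (b : Polynomial ℂ) (hb : IsBFunction ((formFam a h f).f 0) b) :
    Z ∈ DenRing L (RootPair b) := by
  obtain ⟨g, Z', -, h1, rfl⟩ := hZ
  obtain ⟨-, hne, hm⟩ := mg_main _ Z' h1
  have hb1 : IsFunctionalEq (formFam a h f).f b := single_of_isB _ _ hb
  refine (DenRing L _).mul_mem ((DenRing L _).mul_mem (C_mem _)
    (denRing_mono (fun x n _ _ h2 => ?_) (mem_of_tail hm)))
    (Subring.prod_mem _ fun t _ => geo_mem (ha t) le_rfl ?_)
  · have h3 := fm_form a h f ha hne (-(n : ℂ) / x) 1 ((fm_one _ _).2 h2)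
    exact (fm_one _ _).1 (h3.mono (Nat.le_add_right _ _)) b hb1
  · have h4 := fm_form a h f ha hne (-((1 : ℕ) : ℂ) / a t) 0 (fun b hb => by
      rw [pow_zero]; exact one_dvd _)
    refine (fm_one _ _).1 (h4.mono ?_) b hb1
    rw [zero_add]
    exact one_le_cntR' a ha t _ (by push_cast; ring)

/-- jets at the origin -/
theorem jetL_main (ha : ∀ t, 0 < a t) (Z : PowerSeries M) (hZ : JetL L a h f Z)
    (b : Polynomial ℂ) (hb : IsLocalBFunction ((formFam a h f).f 0) b) :
    Z ∈ DenRing L (RootPair b) := by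
  classical
  obtain ⟨g, Z', -, h1, rfl⟩ := hZ
  obtain ⟨hfin, hne, hm⟩ := ml_main _ Z' h1
  have hfs : Finite σ := hfin
  have hF := form_ne' a h f ha hne
  have hfin' : Finite ((Σ t, κ t) ⊕ σ) := inferInstance
  have hFne : ∃ j, (formFam a h f).f j ≠ 0 := ⟨(0 : Fin 1), hF⟩
  refine (DenRing L _).mul_mem ((DenRing L _).mul_mem (C_mem _)
    (denRing_mono (fun x n _ _ h2 => ?_) (mem_of_tail hm)))
    (Subring.prod_mem _ fun t _ => (DenRing L _).mul_mem ((DenRing L _).pow_mem X_mem _)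
      (geo_mem (ha t) le_rfl ?_))
  · exact sf_root hfin' _ hF _ (sf_of_lm _ hFne _ _ (Nat.le_add_right _ _)
      (lm_form a h f ha hne _ 1 (lm_of_sf _ _ h2))) b hb
  · have h2 := lm_form a h f ha hne (-((1 : ℕ) : ℂ) / a t) 0 (lm_zero _ _)
    refine sf_root hfin' _ hF _ (sf_of_lm _ hFne _ _ ?_ h2) b hb
    rw [zero_add]
    exact one_le_cntR' a ha t _ (by push_cast; ring)

end

end Pool.Agent.R852.MC
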