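import Pool.Agent.R852.MC.Defs
import Pool.Agent.R852.MC.Expand
import Pool.Agent.R852.TL.Main
import Pool.Agent.R852.TP.Fin
import Pool.Agent.W574.RO.Main

set_option autoImplicit false
set_option linter.unusedSectionVars false
set_option linter.unusedVariables false

/-! # The denominators of the motivic zeta functions: the induction -/

namespace Pool.Agent.R852.MC

open MvPolynomial Pool.Agent.W574.MO Pool.Agent.W574.SM Pool.Agent.W574.LM Pool.Agent.W574.HS
  Pool.Agent.W574.RO Pool.Agent.W574.CN Pool.Agent.Y229 Pool.Agent.R852.TP Pool.Agent.R852.TL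
open Pool.Agent.R852.PP (cntR one_le_cntR)
open Pool.Agent.Y230.PS (FM single_of_isB)
open Pool.Agent.Y230.TH (fm_one)

variable {M : Type} [CommRing M] {L : Mˣ}

theorem add_frac {a n a' n' l : ℕ} (ha : 1 ≤ a) (ha' : 1 ≤ a') (hl : 1 ≤ l) (hal : a ∣ l)
    (hal' : a' ∣ l) : (-(n : ℂ) / a) + (-(n' : ℂ) / a') =
      -((n * (l / a) + n' * (l / a') : ℕ) : ℂ) / l := by
  obtain ⟨k, rfl⟩ := hal
  obtain ⟨k', hk'⟩ := hal'
  have e1 : a * k / a = k := Nat.mul_div_cancel_left k (by omega)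
  have e2 : a * k / a' = k' := by rw [hk']; exact Nat.mul_div_cancel_left k' (by omega)
  rw [e1, e2]
  have ha0 : (a : ℂ) ≠ 0 := Nat.cast_ne_zero.2 (by omega)
  have ha0' : (a' : ℂ) ≠ 0 := Nat.cast_ne_zero.2 (by omega)
  have hk0 : ((a * k : ℕ) : ℂ) ≠ 0 := Nat.cast_ne_zero.2 (by omega)
  have hk1 : (a : ℂ) * k = a' * k' := by exact_mod_cast hk'
  push_cast at hk0 ⊢
  rw [div_add_div _ _ ha0 ha0', div_eq_div_iff (mul_ne_zero ha0 ha0') hk0]
  linear_combination (-(a : ℂ) * n') * hk1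

theorem sum_ne {A B : Fam} (h : ∃ j, A.f j ≠ 0) : ∃ j, (A.sum B).f j ≠ 0 := by
  obtain ⟨j, hj⟩ := h
  refine ⟨Sum.inl j, ?_⟩
  change rename Sum.inl (A.f j) ≠ 0
  rw [Ne, map_eq_zero_iff _ (rename_injective _ Sum.inl_injective)]
  exact hj

theorem mul_ne {A B : Fam} (h : ∃ j, A.f j ≠ 0) (h' : ∃ j, B.f j ≠ 0) :
    ∃ j, (A.mul B).f j ≠ 0 := by
  obtain ⟨j, hj⟩ := h
  obtain ⟨k, hk⟩ := h'
  refine ⟨(j, k), ?_⟩
  change (rename Sum.inl (A.f j) * rename Sum.inr (B.f k) : MvPolynomial (A.σ ⊕ B.σ) ℂ) ≠ 0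
  refine mul_ne_zero ?_ ?_
  · rw [Ne, map_eq_zero_iff _ (rename_injective _ Sum.inl_injective)]
    exact hj
  · rw [Ne, map_eq_zero_iff _ (rename_injective _ Sum.inr_injective)]
    exact hk

/-- the tail of a product -/
theorem tail_prod_mem {K : ℕ → ℕ → Prop} {τ : Type} (s : Finset τ) (Z : τ → PowerSeries M)
    (h : ∀ t ∈ s, tail 1 (Z t) ∈ DenRing L K) : tail 1 (∏ t ∈ s, Z t) ∈ DenRing L K := by
  classical
  induction s using Finset.induction_on with
  | empty =>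
    rw [Finset.prod_empty]
    have : tail 1 (1 : PowerSeries M) = 1 := by
      have := tail_C (1 : M)
      rwa [map_one] at this
    rw [this]
    exact (DenRing L _).one_mem
  | insert t s ht ih =>
    rw [Finset.prod_insert ht]
    exact tail_mul_mem (h t (Finset.mem_insert_self t s))
      (ih fun t' ht' => h t' (Finset.mem_insert_of_mem ht'))

theorem exp_root (k a n : ℕ) (hk : k ≠ 0) (ha : 1 ≤ a) :
    (k : ℂ) * (-(n : ℂ) / (k * a : ℕ)) = -(n : ℂ) / a := by
  have hkC : (k : ℂ) ≠ 0 := by exact_mod_cast hk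
  have haC : (a : ℂ) ≠ 0 := Nat.cast_ne_zero.2 (by omega)
  push_cast
  field_simp

/-- **Local motivic zeta functions.** -/
theorem ml_main (A : Fam) (Z : PowerSeries M) (h : ML L A Z) :
    Finite A.σ ∧ (∃ j, A.f j ≠ 0) ∧ tail 1 Z ∈ DenRing L (KS A.f 0) := by
  classical
  induction h with
  | germ A Z h => exact germ_main A Z h
  | sum A B Z W hA hB ihA ihB =>
    obtain ⟨fA, hne, hZ⟩ := ihA
    obtain ⟨fB, -, hW⟩ := ihB
    have := fA
    have := fB
    refine ⟨inferInstanceAs (Finite (A.σ ⊕ B.σ)), sum_ne hne, ?_⟩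
    rw [tail_min]
    refine had_mem hZ hW fun a n a' n' l ha hn hK ha' hn' hK' hl hal hal' => ?_
    have h1 := sf_sum A.f B.f 0 0 _ _ hK hK'
    have h3 : (Sum.elim (0 : A.σ → ℂ) (0 : B.σ → ℂ)) = 0 := by
      funext x
      rcases x with x | x <;> rfl
    rw [add_frac ha ha' hl hal hal', h3] at h1
    exact h1
  | mul A B Z W hA hB ihA ihB =>
    obtain ⟨fA, hneA, hZ⟩ := ihA
    obtain ⟨fB, hneB, hW⟩ := ihB
    have := fA
    have := fB
    have h3 : (Sum.elim (0 : A.σ → ℂ) (0 : B.σ → ℂ)) = 0 := by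
      funext x
      rcases x with x | x <;> rfl
    refine ⟨inferInstanceAs (Finite (A.σ ⊕ B.σ)), mul_ne hneA hneB, ?_⟩
    refine tail_mul_mem (denRing_mono (fun a n _ _ h => ?_) hZ)
      (denRing_mono (fun a n _ _ h => ?_) hW)
    · have h1 := sf_mul A.f B.f 0 0 _ h hneB
      rw [h3] at h1
      exact h1
    · have h1 := sf_mul' A.f B.f 0 0 _ h hneA
      rw [h3] at h1
      exact h1
  | form σ τ κ a ha h f Z hA ihA =>
    obtain ⟨fA, hne, hZ⟩ := ihA
    have hfin : Finite σ := fA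
    have hF := form_ne' a h f ha hne
    have hfin' : Finite ((Σ t, κ t) ⊕ σ) := inferInstance
    have hFne : ∃ j, (formFam a h f).f j ≠ 0 := ⟨(0 : Fin 1), hF⟩
    refine ⟨hfin', hFne, tail_mul_mem (denRing_mono (fun x n _ _ h1 => ?_) hZ)
      (tail_prod_mem _ _ fun t _ => tail_mf_mem _ (ha t) ?_)⟩
    · exact sf_of_lm _ hFne _ _ (Nat.le_add_right _ _)
        (lm_form a h f ha hne _ 1 (lm_of_sf _ _ h1))
    · have h2 := lm_form a h f ha hne (-((1 : ℕ) : ℂ) / a t) 0 (lm_zero _ _)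
      refine sf_of_lm _ hFne _ _ ?_ h2
      rw [zero_add]
      exact one_le_cntR' a ha t _ (by push_cast; ring)
  | pow σ g k hk Z hA ihA =>
    obtain ⟨fA, ⟨j, hj⟩, hZ⟩ := ihA
    have hfin : Finite σ := fA
    have hg : g ≠ 0 := hj
    refine ⟨hfin, ⟨(0 : Fin 1), pow_ne_zero k hg⟩, tail_expand_mem k hk (fun a n ha hn h1 => ?_) _ hZ⟩
    refine sf_of_local _ 0 _ (fun H b hb hH => ?_) (exists_fe _ ⟨(0 : Fin 1), pow_ne_zero k hg⟩)
    have h3 := SF.locEq h1 H _ (loc_shift g hg k 0 (Nat.pos_of_ne_zero hk) H b hb) hH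
    rw [← exp_root k a n hk ha] at h3
    have h4 := root_of_shift b k 0 hk _ 0 h3
    rwa [Nat.cast_zero, zero_div, sub_zero] at h4
  | equiv A B i k h Z hA ihA =>
    obtain ⟨fA, ⟨j, hj⟩, hZ⟩ := ihA
    have := fA
    refine ⟨Finite.of_equiv _ i, ⟨k j, ?_⟩, denRing_mono (fun a n _ _ hS => ?_) hZ⟩
    · rw [h, Ne, map_eq_zero_iff _ (rename_injective _ i.injective)]
      exact hj
    · exact sf_equiv i k A.f B.f h 0 _ hS

theorem kf_of_ks {σ ι : Type} [Fintype ι] [DecidableEq ι] (f : ι → MvPolynomial σ ℂ) (a n : ℕ)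
    (h : KS f 0 a n) : KF f a n := by
  intro b hb
  exact SF.locEq h 1 b (isLocEq_one f b hb) (by rw [map_one]; exact one_ne_zero)

/-- **Global motivic zeta functions.** -/
theorem mg_main (A : Fam) (Z : PowerSeries M) (h : MG L A Z) :
    Finite A.σ ∧ (∃ j, A.f j ≠ 0) ∧ tail 1 Z ∈ DenRing L (KF A.f) := by
  classical
  induction h with
  | unit A hA j c hc hj =>
    refine ⟨hA, ⟨j, by rw [hj]; exact fun h => hc (C_eq_zero.1 h)⟩, ?_⟩
    have : tail 1 (1 : PowerSeries M) = 1 := by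
      have := tail_C (1 : M)
      rwa [map_one] at this
    rw [this]
    exact (DenRing L _).one_mem
  | power m hm =>
    obtain ⟨h1, h2⟩ := built_main (L := L) _ _ (Built.power m hm)
    exact ⟨inferInstanceAs (Finite (Fin 1)), h1, h2⟩
  | plane r f hf Z hZ => exact ⟨inferInstanceAs (Finite (Fin 2)), hf, plane_tail f Z hZ⟩
  | cone r f d hd hf e he Z hZ =>
    obtain ⟨h1, h2, h3⟩ := germ_main (L := L) _ _ (Germ.cone r f d hd hf e he Z hZ)
    refine ⟨h1, h2, denRing_mono (fun a n _ _ h => kf_of_ks f a n h) (tail_X_pow_mul d _ ?_)⟩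
    have e1 : PowerSeries.X ^ d * (PowerSeries.C (((L : M) - 1) * ((L⁻¹ ^ 3 : Mˣ) : M)) * Z *
        geo L d 3) = Z * mf L d 3 := by
      rw [mf, if_neg (by omega)]
      ring
    rw [e1]
    exact h3
  | free n r f d hd hf h0 e he =>
    obtain ⟨h1, h2, h3⟩ := germ_main (L := L) _ _ (Germ.free n r f d hd hf h0 e he)
    refine ⟨h1, h2, denRing_mono (fun a n _ _ h => kf_of_ks f a n h) (tail_X_pow_mul d _ ?_)⟩
    have e1 : PowerSeries.X ^ d * (PowerSeries.C (1 - ((L⁻¹ ^ (n + 1) : Mˣ) : M)) *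
        geo L d (n + 1)) = PowerSeries.C (∑ i ∈ Finset.range (n + 1), (L : M) ^ i) *
          mf L d (n + 1) := by
      rw [mf, if_neg (by omega)]
      have h6 : ((L⁻¹ ^ (n + 1) : Mˣ) : M) * (L : M) ^ (n + 1) = 1 := by
        rw [← Units.val_pow_eq_pow_val, ← Units.val_mul, ← mul_pow, inv_mul_cancel, one_pow,
          Units.val_one]
      have h7 := geom_sum_mul (L : M) (n + 1)
      have h8 : (∑ i ∈ Finset.range (n + 1), (L : M) ^ i) * (((L : M) - 1) *
          ((L⁻¹ ^ (n + 1) : Mˣ) : M)) = 1 - ((L⁻¹ ^ (n + 1) : Mˣ) : M) := by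
        rw [← mul_assoc, h7]
        linear_combination h6
      rw [← h8, map_mul]
      ring
    rw [e1]
    exact h3
  | sum A B Z W hA hB ihA ihB =>
    obtain ⟨fA, hne, hZ⟩ := ihA
    obtain ⟨fB, -, hW⟩ := ihB
    have := fA
    have := fB
    refine ⟨inferInstanceAs (Finite (A.σ ⊕ B.σ)), sum_ne hne, ?_⟩
    rw [tail_min]
    refine had_mem hZ hW fun a n a' n' l ha hn hK ha' hn' hK' hl hal hal' => ?_
    have h1 := forced_sum A.f B.f _ _ hK hK'
    rw [add_frac ha ha' hl hal hal'] at h1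
    exact h1
  | mul A B Z W hA hB ihA ihB =>
    obtain ⟨fA, hneA, hZ⟩ := ihA
    obtain ⟨fB, hneB, hW⟩ := ihB
    have := fA
    have := fB
    refine ⟨inferInstanceAs (Finite (A.σ ⊕ B.σ)), mul_ne hneA hneB, ?_⟩
    refine tail_mul_mem (denRing_mono (fun a n _ _ h => ?_) hZ)
      (denRing_mono (fun a n _ _ h => ?_) hW)
    · exact fun b hb => h b (functionalEq_mul A.f B.f hneB b hb)
    · exact fun b hb => h b (functionalEq_mul' A.f B.f hneA b hb)
  | form σ τ κ a ha h f Z hA ihA =>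
    obtain ⟨fA, hne, hZ⟩ := ihA
    have hfin : Finite σ := fA
    have hF := form_ne' a h f ha hne
    have hfin' : Finite ((Σ t, κ t) ⊕ σ) := inferInstance
    refine ⟨hfin', ⟨(0 : Fin 1), hF⟩, tail_mul_mem (denRing_mono (fun x n _ _ h1 => ?_) hZ)
      (tail_prod_mem _ _ fun t _ => ?_)⟩
    · have h2 := fm_form a h f ha hne (-(n : ℂ) / x) 1 ((fm_one _ _).2 h1)
      exact (fm_one _ _).1 (h2.mono (Nat.le_add_right _ _))
    · obtain ⟨-, h2⟩ := built_main (L := L) _ _ (Built.power (a t) (ha t))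
      refine denRing_mono (fun x n hx hn h3 => ?_) ?_ (Z := tail 1 _) (K := fun x n => x = a t ∧ n = 1)
      · obtain ⟨rfl, rfl⟩ := h3
        have h4 := fm_form a h f ha hne (-((1 : ℕ) : ℂ) / a t) 0 (fun b hb => by
          rw [pow_zero]; exact one_dvd _)
        refine (fm_one _ _).1 (h4.mono ?_)
        rw [zero_add]
        exact one_le_cntR' a ha t _ (by push_cast; ring)
      · rw [tail_power (a t) (ha t)]
        exact (DenRing L _).add_mem (DenRing L _).one_mem ((DenRing L _).mul_mem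
          ((DenRing L _).mul_mem ((DenRing L _).mul_mem (C_mem _) X_mem) (X_pow_sum_mem (a t)))
          (geo_mem (ha t) le_rfl ⟨rfl, rfl⟩))
  | pow σ g k hk Z hA ihA =>
    obtain ⟨fA, ⟨j, hj⟩, hZ⟩ := ihA
    have hfin : Finite σ := fA
    have hg : g ≠ 0 := hj
    refine ⟨hfin, ⟨(0 : Fin 1), pow_ne_zero k hg⟩, tail_expand_mem k hk (fun a n ha hn h1 => ?_) _ hZ⟩
    intro b hb
    have h3 := h1 _ (single_of_isB _ _ (isB_shift g hg k 0 (Nat.pos_of_ne_zero hk) b
      (isB_of_single _ b hb)))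
    rw [← exp_root k a n hk ha] at h3
    have h4 := root_of_shift b k 0 hk _ 0 h3
    rwa [Nat.cast_zero, zero_div, sub_zero] at h4
  | equiv A B i k h Z hA ihA =>
    obtain ⟨fA, ⟨j, hj⟩, hZ⟩ := ihA
    have := fA
    refine ⟨Finite.of_equiv _ i, ⟨k j, ?_⟩, denRing_mono (fun a n _ _ hS => ?_) hZ⟩
    · rw [h, Ne, map_eq_zero_iff _ (rename_injective _ i.injective)]
      exact hj
    · exact isForcing_global.equiv A B i k h _ hS

end Pool.Agent.R852.MC
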